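import Pool.Agent.Y89.KS.Defs5

/-!
# Hodge classes on powers of varieties of K3 type: the parts S_gts and S_tens

`gts` turns a system of forms with variables indexed by types into one with variables indexed by
numbers.  `tens_sys` shows that the forms on `U` whose pull-back to the tensor square of `ι`
belongs to the system form again a system.
-/

open Matrix Finset

namespace Pool.Agent.Y998.KS

set_option linter.unusedSectionVars false

open Pool.Agent.Y89.KS

section gts

variable {F : Type} [Field F] {ι : Type} [Fintype ι] {R : Matrix ι ι F}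
  {M : ∀ S : Type, Submodule F ((S → ι) → F)}

theorem sys_of_gsys (h : GSys R M) : Sys R fun k => M (Fin k) where
  unit := h.unit (Fin 0) _
  mul k l f g hf hg := by
    have h1 := h.reidx _ _ (finSumFinEquiv : Fin k ⊕ Fin l ≃ Fin (k + l)) _
      (h.mul (Fin k) (Fin l) f g hf hg)
    exact h1
  perm k σ f hf := h.reidx _ _ σ f hf
  con k f hf := by
    have h1 := h.con _ _ (h.reidx _ _ ((finSumFinEquiv : Fin k ⊕ Fin 2 ≃ Fin (k + 2)).symm.trans
      (Equiv.sumCongr (Equiv.refl _) finTwoEquiv)) f hf)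
    have h2 : (fun J : Fin k → ι => ∑ p, ∑ q, R p q * f (Fin.append J ![p, q])) =
        fun J : Fin k → ι => ∑ p, ∑ q, R p q * (fun J : Fin k ⊕ Bool → ι => f fun s => J
          (((finSumFinEquiv : Fin k ⊕ Fin 2 ≃ Fin (k + 2)).symm.trans
            (Equiv.sumCongr (Equiv.refl _) finTwoEquiv)) s)) (Sum.elim J fun b => cond b q p) := by
      funext J
      refine Finset.sum_congr rfl fun p _ => Finset.sum_congr rfl fun q _ => ?_
      congr 2
      funext s
      refine Fin.addCases (fun i => ?_) (fun i => ?_) s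
      · simp [Fin.append_left]
      · fin_cases i <;> simp [Fin.append_right, finTwoEquiv]
    rw [h2]
    exact h1

end gts

theorem gts : S_gts := fun _ _ _ _ _ _ h => sys_of_gsys h

section tens

variable {F : Type} [Field F] {ι : Type} [Fintype ι] {R : Matrix ι ι F}
  {M : ∀ S : Type, Submodule F ((S → ι) → F)} {U : Type} [Fintype U]

/-- the pull-back to the tensor square -/
def TT (K : U → ι → ι → F) (k : ℕ) (f : (Fin k → U) → F) : (Fin k × Bool → ι) → F :=
  fun L => ∑ J : Fin k → U, f J * ∏ s, K (J s) (L (s, false)) (L (s, true))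

theorem mem_tens {K : U → ι → ι → F} {k : ℕ} {f : (Fin k → U) → F} :
    f ∈ tens M K k ↔ TT K k f ∈ M (Fin k × Bool) := Iff.rfl

theorem sum_append {V : Type} [Fintype V] (k l : ℕ) (φ : (Fin (k + l) → V) → F) :
    ∑ J, φ J = ∑ J₁ : Fin k → V, ∑ J₂ : Fin l → V, φ (Fin.append J₁ J₂) := by
  rw [← Fintype.sum_prod_type']
  exact (Fintype.sum_equiv (Fin.appendEquiv k l) _ _ fun x => rfl).symm

theorem TT_mul (K : U → ι → ι → F) (k l : ℕ) (f : (Fin k → U) → F) (g : (Fin l → U) → F)
    (L : Fin (k + l) × Bool → ι) :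
    TT K (k + l) (fun J : Fin (k + l) → U =>
      f (fun i => J (Fin.castAdd l i)) * g (fun i => J (Fin.natAdd k i))) L =
    TT K k f (fun s => L (Fin.castAdd l s.1, s.2)) * TT K l g (fun s => L (Fin.natAdd k s.1, s.2)) := by
  unfold TT
  rw [sum_append, Finset.sum_mul_sum]
  refine Finset.sum_congr rfl fun J₁ _ => Finset.sum_congr rfl fun J₂ _ => ?_
  rw [Fin.prod_univ_add]
  simp only [Fin.append_left, Fin.append_right]
  ring

theorem TT_perm (K : U → ι → ι → F) (k : ℕ) (σ : Equiv.Perm (Fin k)) (f : (Fin k → U) → F)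
    (L : Fin k × Bool → ι) :
    TT K k (fun J : Fin k → U => f (fun i => J (σ i))) L = TT K k f (fun s => L (σ s.1, s.2)) := by
  unfold TT
  refine Fintype.sum_equiv (Equiv.arrowCongr σ.symm (Equiv.refl U)) _ _ fun J => ?_
  have h1 : (Equiv.arrowCongr σ.symm (Equiv.refl U)) J = fun i => J (σ i) := by
    funext i
    simp [Equiv.arrowCongr]
  rw [h1]
  congr 1
  exact (Equiv.prod_comp σ fun s => K (J s) (L (s, false)) (L (s, true))).symm

/-- the reindexing of the slots -/
def eqv (k : ℕ) : Fin (k + 2) × Bool ≃ ((Fin k × Bool) ⊕ Bool) ⊕ Bool :=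
  (Equiv.prodCongr (finSumFinEquiv.symm.trans (Equiv.sumCongr (Equiv.refl (Fin k)) finTwoEquiv))
    (Equiv.refl Bool)).trans <|
  (Equiv.sumProdDistrib (Fin k) Bool Bool).trans <|
  (Equiv.sumCongr (Equiv.refl _) ((Equiv.prodComm Bool Bool).trans
    (Equiv.boolProdEquivSum Bool))).trans (Equiv.sumAssoc _ _ _).symm

theorem eqv_cast (k : ℕ) (i : Fin k) (c : Bool) :
    eqv k (Fin.castAdd 2 i, c) = Sum.inl (Sum.inl (i, c)) := by
  simp [eqv]

theorem eqv_nat (k : ℕ) (x : Fin 2) (c : Bool) :
    eqv k (Fin.natAdd k x, c) = cond c (Sum.inr (finTwoEquiv x)) (Sum.inl (Sum.inr (finTwoEquiv x))) := by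
  cases c <;> simp [eqv]

theorem sum_swap {V W : Type} [Fintype V] [Fintype W] (Y : V → W → U → U → F) :
    ∑ a, ∑ J, ∑ p, ∑ q, Y a J p q = ∑ J, ∑ p, ∑ q, ∑ a, Y a J p q := by
  rw [Finset.sum_comm]
  refine Finset.sum_congr rfl fun J _ => ?_
  rw [Finset.sum_comm]
  refine Finset.sum_congr rfl fun p _ => ?_
  rw [Finset.sum_comm]

theorem TT_con {K : U → ι → ι → F} {R' : Matrix U U F} {κ : F}
    (hK : ∀ u u', ∑ a, ∑ a', ∑ b, ∑ b', K u a b * K u' a' b' * (R a a' * R b b') = κ * R' u u')
    (k : ℕ) (f : (Fin (k + 2) → U) → F) (L : Fin k × Bool → ι) :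
    ∑ a, ∑ a', R a a' * ∑ b, ∑ b', R b b' * TT K (k + 2) f (fun s =>
      Sum.elim (Sum.elim L fun x => cond x a' a) (fun x => cond x b' b) (eqv k s)) =
    κ * TT K k (fun J : Fin k → U => ∑ p, ∑ q, R' p q * f (Fin.append J ![p, q])) L := by
  have h1 : ∀ a a' b b', TT K (k + 2) f (fun s =>
      Sum.elim (Sum.elim L fun x => cond x a' a) (fun x => cond x b' b) (eqv k s)) =
      ∑ J : Fin k → U, ∑ p, ∑ q, f (Fin.append J ![p, q]) *
        ((∏ s, K (J s) (L (s, false)) (L (s, true))) * (K p a b * K q a' b')) := by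
    intro a a' b b'
    unfold TT
    rw [sum_append]
    refine Finset.sum_congr rfl fun J _ => ?_
    rw [← Fintype.sum_prod_type']
    refine Fintype.sum_equiv (finTwoArrowEquiv U) _ _ fun J₂ => ?_
    have h2 : J₂ = ![((finTwoArrowEquiv U) J₂).1, ((finTwoArrowEquiv U) J₂).2] := by
      funext i
      fin_cases i <;> rfl
    rw [← h2, Fin.prod_univ_add, Fin.prod_univ_two]
    simp only [eqv_cast, eqv_nat, Fin.append_left, Fin.append_right, Sum.elim_inl, Sum.elim_inr,
      cond_true, cond_false]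
    rfl
  simp only [h1]
  unfold TT
  have h3 : ∀ a a', (R a a' * ∑ b, ∑ b', R b b' * ∑ J : Fin k → U, ∑ p, ∑ q,
      f (Fin.append J ![p, q]) *
        ((∏ s, K (J s) (L (s, false)) (L (s, true))) * (K p a b * K q a' b'))) =
      ∑ J : Fin k → U, ∑ p, ∑ q, ∑ b, ∑ b', (K p a b * K q a' b' * (R a a' * R b b')) *
        (f (Fin.append J ![p, q]) * ∏ s, K (J s) (L (s, false)) (L (s, true))) := by
    intro a a'
    simp only [Finset.mul_sum]
    rw [Finset.sum_congr rfl fun b _ => sum_swap (V := ι) (W := Fin k → U) _, sum_swap]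
    refine Finset.sum_congr rfl fun J _ => Finset.sum_congr rfl fun p _ =>
      Finset.sum_congr rfl fun q _ => Finset.sum_congr rfl fun b _ =>
      Finset.sum_congr rfl fun b' _ => ?_
    ring
  simp only [h3]
  rw [Finset.sum_congr rfl fun a _ => sum_swap (V := ι) (W := Fin k → U) _, sum_swap]
  simp only [← Finset.sum_mul]
  simp only [hK]
  simp only [Finset.mul_sum, Finset.sum_mul]
  refine Finset.sum_congr rfl fun J _ => Finset.sum_congr rfl fun p _ =>
      Finset.sum_congr rfl fun q _ => ?_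
  ring

theorem tens_sys' (h : GSys R M) {K : U → ι → ι → F} {R' : Matrix U U F} {κ : F} (hκ : κ ≠ 0)
    (hK : ∀ u u', ∑ a, ∑ a', ∑ b, ∑ b', K u a b * K u' a' b' * (R a a' * R b b') = κ * R' u u') :
    Sys R' (tens M K) where
  unit := h.unit (Fin 0 × Bool) _
  mul k l f g hf hg := by
    rw [mem_tens] at hf hg ⊢
    have h1 := h.reidx _ _ ((Equiv.sumProdDistrib (Fin k) (Fin l) Bool).symm.trans
      (Equiv.prodCongr finSumFinEquiv (Equiv.refl Bool))) _ (h.mul _ _ _ _ hf hg)
    have h2 : TT K (k + l) (fun J : Fin (k + l) → U =>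
        f (fun i => J (Fin.castAdd l i)) * g (fun i => J (Fin.natAdd k i))) = fun L =>
        TT K k f (fun s => L (Fin.castAdd l s.1, s.2)) *
          TT K l g (fun s => L (Fin.natAdd k s.1, s.2)) := by
      funext L
      exact TT_mul K k l f g L
    rw [h2]
    exact h1
  perm k σ f hf := by
    rw [mem_tens] at hf ⊢
    have h1 := h.reidx _ _ (Equiv.prodCongr σ (Equiv.refl Bool)) _ hf
    have h2 : TT K k (fun J : Fin k → U => f (fun i => J (σ i))) = fun L =>
        TT K k f (fun s => L (σ s.1, s.2)) := by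
      funext L
      exact TT_perm K k σ f L
    rw [h2]
    exact h1
  con k f hf := by
    rw [mem_tens] at hf ⊢
    have h1 := h.con _ _ (h.con _ _ (h.reidx _ _ (eqv k) _ hf))
    have h2 : TT K k (fun J : Fin k → U => ∑ p, ∑ q, R' p q * f (Fin.append J ![p, q])) = κ⁻¹ •
        fun L : Fin k × Bool → ι => ∑ a, ∑ a', R a a' * ∑ b, ∑ b', R b b' *
          TT K (k + 2) f (fun s => Sum.elim (Sum.elim L fun x => cond x a' a)
            (fun x => cond x b' b) (eqv k s)) := by
      funext L
      rw [Pi.smul_apply, TT_con hK k f L, smul_eq_mul, inv_mul_cancel_left₀ hκ]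
    rw [h2]
    exact Submodule.smul_mem _ _ h1

end tens

theorem tens_sys : S_tens := fun _ _ _ _ _ _ h _ _ _ _ _ hκ hK => tens_sys' h hκ hK

end Pool.Agent.Y998.KS
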